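import Pool.Agent.Lib.MP_a31e1e_gt.H63.Jet

/-!
# Project TIGHT, module CORECURV
-/

open Set

namespace Pool.Agent.Tight

namespace H63

lemma jet_cos1 : Jet (fun b => Real.cos (b 0)) (fun b => -Real.sin (b 0))
    (fun _ => 0) (fun b => -Real.cos (b 0)) (fun _ => 0) (fun _ => 0) :=
  (jet_cos 1).congr (by intro b; simp) (by intro b; simp) (by intro b; simp)
    (by intro b; simp) (by intro b; simp) (by intro b; simp)

lemma jet_sin1 : Jet (fun b => Real.sin (b 0)) (fun b => Real.cos (b 0))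
    (fun _ => 0) (fun b => -Real.sin (b 0)) (fun _ => 0) (fun _ => 0) :=
  (jet_sin 1).congr (by intro b; simp) (by intro b; simp) (by intro b; simp)
    (by intro b; simp) (by intro b; simp) (by intro b; simp)

lemma jetX : Jet xiX (fun b => -(2 * Real.sin (2 * b 0)) - b 1 * Real.sin (b 0))
    (fun b => Real.cos (b 0)) (fun b => -(4 * Real.cos (2 * b 0)) - b 1 * Real.cos (b 0))
    (fun b => -Real.sin (b 0)) (fun _ => 0) :=
  ((jet_cos 2).add (jet_t.mul jet_cos1)).congr (by intro b; simp only [xiX])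
    (by intro b; ring) (by intro b; ring) (by intro b; ring) (by intro b; ring)
    (by intro b; ring)

lemma jetY : Jet xiY (fun b => 2 * Real.cos (2 * b 0) - b 1 * Real.cos (b 0))
    (fun b => -Real.sin (b 0)) (fun b => -(4 * Real.sin (2 * b 0)) + b 1 * Real.sin (b 0))
    (fun b => -Real.cos (b 0)) (fun _ => 0) :=
  ((jet_sin 2).add ((jet_t.mul jet_sin1).cmul (-1))).congr
    (by intro b; simp only [xiY]; ring)
    (by intro b; ring) (by intro b; ring) (by intro b; ring) (by intro b; ring)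
    (by intro b; ring)

lemma jetW : Jet (fun b => b 1 * Real.sin (3 * b 0)) (fun b => 3 * b 1 * Real.cos (3 * b 0))
    (fun b => Real.sin (3 * b 0)) (fun b => -(9 * b 1 * Real.sin (3 * b 0)))
    (fun b => 3 * Real.cos (3 * b 0)) (fun _ => 0) :=
  (jet_t.mul (jet_sin 3)).congr (by intro b; ring)
    (by intro b; ring) (by intro b; ring) (by intro b; ring) (by intro b; ring)
    (by intro b; ring)

/-- the algebra behind the curvature of the core -/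
lemma alg_uu {c s p q t : ℝ} (hpq : p ^ 2 + q ^ 2 = 1) (hcs : c ^ 2 + s ^ 2 = 1)
    (hc : c = p ^ 3 - 3 * p * q ^ 2) (hs : s = 3 * p ^ 2 * q - q ^ 3)
    {X Y Xu Yu Xt Yt Xuu Yuu : ℝ}
    (hX : X = (c + t) * p + s * q) (hY : Y = s * p - (c + t) * q)
    (hXu : Xu = -2 * s * p + (2 * c - t) * q) (hYu : Yu = (2 * c - t) * p + 2 * s * q)
    (hXt : Xt = p) (hYt : Yt = -q)
    (hXuu : Xuu = (-4 * c - t) * p + (-4 * s) * q)
    (hYuu : Yuu = (-4 * s) * p - (-4 * c - t) * q) :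
    (Xu * (Yt * (-9 * t * s) - s * Yuu) - Yu * (Xt * (-9 * t * s) - s * Xuu)
      + 3 * t * c * (Xt * Yuu - Yt * Xuu))
      + 1 / 20 * (Xu * Yt - Yu * Xt) *
        (-6 * (X * (2 * Xu * Yu) + Y * (Xu ^ 2 - Yu ^ 2))) =
      -s * (8 * (t ^ 2 - t * c + 1) + 3 / 10 * (t - 2 * c) * (t ^ 3 - 8 * c)) := by
  have h1 : Xu * (Yt * (-9 * t * s) - s * Yuu) - Yu * (Xt * (-9 * t * s) - s * Xuu)
      + 3 * t * c * (Xt * Yuu - Yt * Xuu) =
      (p ^ 2 + q ^ 2) * (s * (-8 * s ^ 2 + (t - 2 * c) * (-8 * t + 4 * c) - 12 * t * c)) := by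
    rw [hXu, hYu, hXt, hYt, hXuu, hYuu]; ring
  have h2 : Xu * Yt - Yu * Xt = (t - 2 * c) * (p ^ 2 + q ^ 2) := by
    rw [hXu, hYu, hXt, hYt]; ring
  have h3 : X * (2 * Xu * Yu) + Y * (Xu ^ 2 - Yu ^ 2) =
      ((c + t) * (4 * s * (t - 2 * c)) + s * (4 * s ^ 2 - (t - 2 * c) ^ 2)) *
        (p ^ 3 - 3 * p * q ^ 2) -
      ((c + t) * (4 * s ^ 2 - (t - 2 * c) ^ 2) - s * (4 * s * (t - 2 * c))) *
        (3 * p ^ 2 * q - q ^ 3) := by
    rw [hXu, hYu, hX, hY]; ring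
  rw [h1, h2, h3, hpq, ← hc, ← hs]
  linear_combination (-8 * s + 12 / 5 * (t - 2 * c) * s * c) * hcs

lemma alg_ut {c s p q t : ℝ} (hpq : p ^ 2 + q ^ 2 = 1) (hcs : c ^ 2 + s ^ 2 = 1)
    (hc : c = p ^ 3 - 3 * p * q ^ 2) (hs : s = 3 * p ^ 2 * q - q ^ 3)
    {X Y Xu Yu Xt Yt Xuu Yuu : ℝ}
    (hX : X = (c + t) * p + s * q) (hY : Y = s * p - (c + t) * q)
    (hXu : Xu = -2 * s * p + (2 * c - t) * q) (hYu : Yu = (2 * c - t) * p + 2 * s * q)
    (hXt : Xt = p) (hYt : Yt = -q)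
    (hXut : Xuu = - q)
    (hYut : Yuu = - p) :
    (Xu * (Yt * (3 * c) - s * Yuu) - Yu * (Xt * (3 * c) - s * Xuu)
      + 3 * t * c * (Xt * Yuu - Yt * Xuu))
      + 1 / 20 * (Xu * Yt - Yu * Xt) *
        (-6 * (X * (Xu * Yt + Yu * Xt) + Y * (Xu * Xt - Yu * Yt))) =
      - BB t c := by
  have h1 : Xu * (Yt * (3 * c) - s * Yuu) - Yu * (Xt * (3 * c) - s * Xuu)
      + 3 * t * c * (Xt * Yuu - Yt * Xuu) =
      (p ^ 2 + q ^ 2) * (-2 * s ^ 2 + 3 * c * (t - 2 * c) - 3 * t * c) := by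
    rw [hXu, hYu, hXt, hYt, hXut, hYut]; ring
  have h2 : Xu * Yt - Yu * Xt = (t - 2 * c) * (p ^ 2 + q ^ 2) := by
    rw [hXu, hYu, hXt, hYt]; ring
  have h3 : X * (Xu * Yt + Yu * Xt) + Y * (Xu * Xt - Yu * Yt) =
      (-(c + t) * (t - 2 * c) - 2 * s ^ 2) * (p ^ 3 - 3 * p * q ^ 2) -
      (-2 * s * (c + t) + s * (t - 2 * c)) * (3 * p ^ 2 * q - q ^ 3) := by
    rw [hXu, hYu, hX, hY, hXt, hYt]; ring
  rw [h1, h2, h3, hpq, ← hc, ← hs]
  unfold BB
  linear_combination (-2 - 3 / 10 * (t - 2 * c) * (t + 2 * c)) * hcs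

lemma alg_tt {c s p q t : ℝ} (hpq : p ^ 2 + q ^ 2 = 1)
    (hc : c = p ^ 3 - 3 * p * q ^ 2) (hs : s = 3 * p ^ 2 * q - q ^ 3)
    {X Y Xu Yu Xt Yt : ℝ}
    (hX : X = (c + t) * p + s * q) (hY : Y = s * p - (c + t) * q)
    (hXu : Xu = -2 * s * p + (2 * c - t) * q) (hYu : Yu = (2 * c - t) * p + 2 * s * q)
    (hXt : Xt = p) (hYt : Yt = -q) :
      1 / 20 * (Xu * Yt - Yu * Xt) *
        (-6 * (X * (2 * Xt * Yt) + Y * (Xt ^ 2 - Yt ^ 2))) =
      3 / 10 * (t - 2 * c) * t * s := by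
  have h2 : Xu * Yt - Yu * Xt = (t - 2 * c) * (p ^ 2 + q ^ 2) := by
    rw [hXu, hYu, hXt, hYt]; ring
  have h3 : X * (2 * Xt * Yt) + Y * (Xt ^ 2 - Yt ^ 2) =
      s * (p ^ 3 - 3 * p * q ^ 2) - (c + t) * (3 * p ^ 2 * q - q ^ 3) := by
    rw [hX, hY, hXt, hYt]; ring
  rw [h2, h3, hpq, ← hc, ← hs]
  ring

lemma det3_vec (a1 a2 a3 b1 b2 b3 c1 c2 c3 : ℝ) :
    det3 !₂[a1, a2, a3] !₂[b1, b2, b3] !₂[c1, c2, c3] =
      a1 * (b2 * c3 - b3 * c2) - a2 * (b1 * c3 - b3 * c1) + a3 * (b1 * c2 - b2 * c1) := by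
  simp [det3]

lemma trig_c (u : ℝ) : Real.cos (3 * u) =
    Real.cos u ^ 3 - 3 * Real.cos u * Real.sin u ^ 2 := by
  rw [Real.cos_three_mul]
  have := Real.sin_sq_add_cos_sq u
  linear_combination (3 * Real.cos u) * this

lemma trig_s (u : ℝ) : Real.sin (3 * u) =
    3 * Real.cos u ^ 2 * Real.sin u - Real.sin u ^ 3 := by
  rw [Real.sin_three_mul]
  have := Real.sin_sq_add_cos_sq u
  linear_combination (-3 * Real.sin u) * this

lemma trig_c2 (u : ℝ) : Real.cos (2 * u) =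
    Real.cos (3 * u) * Real.cos u + Real.sin (3 * u) * Real.sin u := by
  rw [← Real.cos_sub]; congr 1; ring

lemma trig_s2 (u : ℝ) : Real.sin (2 * u) =
    Real.sin (3 * u) * Real.cos u - Real.cos (3 * u) * Real.sin u := by
  rw [← Real.sin_sub]; congr 1; ring

end H63

open H63 in
/-- CORECURV. -/
theorem core_curv : CoreCurvStatement := by
  intro l b
  -- the jet of the third coordinate
  have jC := (jetY.mul (jetY.mul jetY)).add ((jetX.mul (jetX.mul jetY)).cmul (-3))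
  have jZ := ((Jet.const (-1)).add (jC.cmul (-(l ^ 3 / 2)))).add (jetW.cmul (-(10 * l ^ 3)))
  have hcore : coreX l = fun b => (!₂[l * xiX b, l * xiY b,
      (-1 + -(l ^ 3 / 2) * (xiY b * (xiY b * xiY b) + -3 * (xiX b * (xiX b * xiY b)))) +
        -(10 * l ^ 3) * (b 1 * Real.sin (3 * b 0))] : E3) := by
    funext b
    have h : -1 - cc (pl (l * xiX b) (l * xiY b)) / 2 - 10 * l ^ 3 * (b 1 * Real.sin (3 * b 0)) =
      (-1 + -(l ^ 3 / 2) * (xiY b * (xiY b * xiY b) + -3 * (xiX b * (xiX b * xiY b)))) +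
        -(10 * l ^ 3) * (b 1 * Real.sin (3 * b 0)) := by
      simp only [cc, pl]
      simp
      ring
    unfold coreX
    rw [h]
  obtain ⟨h00, h01, h11⟩ := sff_vec (jetX.cmul l) (jetY.cmul l) jZ b
  unfold curv
  rw [hcore, h00, h01, h11]
  have hpq : Real.cos (b 0) ^ 2 + Real.sin (b 0) ^ 2 = 1 := Real.cos_sq_add_sin_sq _
  have hcs : Real.cos (3 * b 0) ^ 2 + Real.sin (3 * b 0) ^ 2 = 1 := Real.cos_sq_add_sin_sq _
  have hX : xiX b = (Real.cos (3 * b 0) + b 1) * Real.cos (b 0) +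
      Real.sin (3 * b 0) * Real.sin (b 0) := by
    unfold xiX; rw [trig_c2]; ring
  have hY : xiY b = Real.sin (3 * b 0) * Real.cos (b 0) -
      (Real.cos (3 * b 0) + b 1) * Real.sin (b 0) := by
    unfold xiY; rw [trig_s2]; ring
  have hXu : -(2 * Real.sin (2 * b 0)) - b 1 * Real.sin (b 0) =
      -2 * Real.sin (3 * b 0) * Real.cos (b 0) +
        (2 * Real.cos (3 * b 0) - b 1) * Real.sin (b 0) := by
    rw [trig_s2]; ring
  have hYu : 2 * Real.cos (2 * b 0) - b 1 * Real.cos (b 0) =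
      (2 * Real.cos (3 * b 0) - b 1) * Real.cos (b 0) +
        2 * Real.sin (3 * b 0) * Real.sin (b 0) := by
    rw [trig_c2]; ring
  have hXuu : -(4 * Real.cos (2 * b 0)) - b 1 * Real.cos (b 0) =
      (-4 * Real.cos (3 * b 0) - b 1) * Real.cos (b 0) +
        (-4 * Real.sin (3 * b 0)) * Real.sin (b 0) := by
    rw [trig_c2]; ring
  have hYuu : -(4 * Real.sin (2 * b 0)) + b 1 * Real.sin (b 0) =
      (-4 * Real.sin (3 * b 0)) * Real.cos (b 0) -
        (-4 * Real.cos (3 * b 0) - b 1) * Real.sin (b 0) := by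
    rw [trig_s2]; ring
  have a1 := alg_uu hpq hcs (trig_c (b 0)) (trig_s (b 0)) hX hY hXu hYu rfl rfl hXuu hYuu
  have a2 := alg_ut hpq hcs (trig_c (b 0)) (trig_s (b 0)) hX hY hXu hYu rfl rfl rfl rfl
  have a3 := alg_tt hpq (trig_c (b 0)) (trig_s (b 0)) hX hY hXu hYu rfl rfl
  clear hX hY hXu hYu hXuu hYuu hcore jZ jC h00 h01 h11
  rw [det3_vec, det3_vec, det3_vec]
  generalize -(2 * Real.sin (2 * b 0)) - b 1 * Real.sin (b 0) = Xu at *
  generalize 2 * Real.cos (2 * b 0) - b 1 * Real.cos (b 0) = Yu at *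
  generalize -(4 * Real.cos (2 * b 0)) - b 1 * Real.cos (b 0) = Xuu at *
  generalize -(4 * Real.sin (2 * b 0)) + b 1 * Real.sin (b 0) = Yuu at *
  generalize xiX b = X at *
  generalize xiY b = Y at *
  generalize Real.cos (3 * b 0) = c at *
  generalize Real.sin (3 * b 0) = s at *
  generalize Real.cos (b 0) = p at *
  generalize Real.sin (b 0) = q at *
  generalize b 1 = t at *
  have final : 100 * l ^ 10 * (s ^ 2 * AA t c + BB t c ^ 2) =
      -((-10 * l ^ 5 * (-s * (8 * (t ^ 2 - t * c + 1) +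
        3 / 10 * (t - 2 * c) * (t ^ 3 - 8 * c)))) *
        (-10 * l ^ 5 * (3 / 10 * (t - 2 * c) * t * s)) - (-10 * l ^ 5 * (-BB t c)) ^ 2) := by
    unfold AA; ring
  rw [final, neg_neg, ← a1, ← a2, ← a3]
  refine congrArg₂ (fun x y => x - y) (congrArg₂ (fun x y => x * y) ?_ ?_)
    (congrArg (fun x => x ^ 2) ?_)
  · ring
  · ring
  · ring

end Pool.Agent.Tight
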