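import Pool.Agent.Lib.MP_a31e1e_gt.Interfaces

/-!
# Project TIGHT, module COREINEQ
-/

open Set

namespace Pool.Agent.Tight

namespace H63

lemma AA_neg (t c : ℝ) : AA (-t) (-c) = AA t c := by
  unfold AA; ring

lemma BB_neg (t c : ℝ) : BB (-t) (-c) = BB t c := by
  unfold BB; ring

lemma BB_eq (t c : ℝ) :
    BB t c = 2 + 14 / 5 * c ^ 2 + 3 / 10 * t ^ 2 - 3 / 10 * (c * t ^ 2 * (t - 2 * c)) := by
  unfold BB; ring

/-- Region A: `BB ≥ 2`. -/
lemma BB_ge_of_A {t c : ℝ} (ht : 0 ≤ t) (h : c ≤ 0 ∨ (0 ≤ c ∧ t ≤ 2 * c)) :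
    2 ≤ BB t c := by
  rw [BB_eq]
  have h1 : c * t ^ 2 * (t - 2 * c) ≤ 0 := by
    rcases h with h | ⟨h, h'⟩
    · have : 0 ≤ t ^ 2 * (t - 2 * c) := by
        apply mul_nonneg (by positivity); linarith
      nlinarith [mul_nonneg (neg_nonneg.2 h) this]
    · have : 0 ≤ c * t ^ 2 := by positivity
      nlinarith [mul_nonneg this (by linarith : (0 : ℝ) ≤ 2 * c - t)]
  nlinarith [sq_nonneg c, sq_nonneg t]

lemma AA_nonneg_of_neg {t c : ℝ} (ht : 0 ≤ t) (hc : c ≤ 0) : 0 ≤ AA t c := by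
  unfold AA
  have h1 : 0 ≤ t - 2 * c := by linarith
  have h2 : 0 ≤ t ^ 3 - 8 * c := by have := pow_nonneg ht 3; linarith
  have h3 : 0 ≤ t ^ 2 - t * c + 1 := by nlinarith [mul_nonneg ht (neg_nonneg.2 hc)]
  positivity

/-- In the middle region the negative part of `AA` is small. -/
lemma AA_ge_mid {t c s : ℝ} (hcs : c ^ 2 + s ^ 2 = 1) (ht : 0 ≤ t) (hc : 0 ≤ c)
    (htc : t ≤ 2 * c) : -3 ≤ s ^ 2 * AA t c := by
  have hc1 : c ≤ 1 := by nlinarith [sq_nonneg s]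
  set τ := 2 * c - t with hτ
  have hτ0 : 0 ≤ τ := by linarith
  have h1 : 0 ≤ τ * t := mul_nonneg hτ0 ht
  have h2 : τ * t ≤ c ^ 2 := by nlinarith [sq_nonneg (c - t)]
  have h3 : AA t c = -(3 / 10 * (τ * t) * (8 * (t ^ 2 - t * c + 1)
      - 3 / 10 * τ * (t ^ 3 - 8 * c))) := by
    rw [hτ]; unfold AA; ring
  have h4 : 8 * (t ^ 2 - t * c + 1) - 3 / 10 * τ * (t ^ 3 - 8 * c) ≤ 8 + 21 * c ^ 2 := by
    have h5 : 0 ≤ τ * t ^ 3 := mul_nonneg hτ0 (pow_nonneg ht 3)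
    have h6 : τ * c ≤ 2 * c ^ 2 := by nlinarith
    have h7 : t ^ 2 - t * c ≤ 2 * c ^ 2 := by nlinarith
    nlinarith
  have h8 : 0 ≤ 8 * (t ^ 2 - t * c + 1) - 3 / 10 * τ * (t ^ 3 - 8 * c) ∨
      8 * (t ^ 2 - t * c + 1) - 3 / 10 * τ * (t ^ 3 - 8 * c) < 0 := le_or_gt _ _
  have hAA : -(3 / 10 * c ^ 2 * (8 + 21 * c ^ 2)) ≤ AA t c := by
    rw [h3]
    rcases h8 with h8 | h8
    · have := mul_le_mul h2 h4 h8 (by positivity)
      nlinarith
    · have := mul_nonneg h1 (neg_nonneg.2 h8.le)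
      have h9 : 0 ≤ c ^ 2 * (8 + 21 * c ^ 2) := by positivity
      nlinarith
  have hs : s ^ 2 = 1 - c ^ 2 := by linarith
  have hs0 : 0 ≤ s ^ 2 := sq_nonneg s
  have h10 : s ^ 2 * (-(3 / 10 * c ^ 2 * (8 + 21 * c ^ 2))) ≤ s ^ 2 * AA t c :=
    mul_le_mul_of_nonneg_left hAA hs0
  have h11 : c ^ 2 * s ^ 2 ≤ 1 / 4 := by
    rw [hs]; nlinarith [sq_nonneg (c ^ 2 - 1 / 2)]
  have h12 : 8 + 21 * c ^ 2 ≤ 29 := by nlinarith
  have h13 : c ^ 2 * s ^ 2 * (8 + 21 * c ^ 2) ≤ 1 / 4 * 29 :=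
    mul_le_mul h11 h12 (by positivity) (by norm_num)
  nlinarith

lemma F_ge_of_A {t c s : ℝ} (hcs : c ^ 2 + s ^ 2 = 1) (ht : 0 ≤ t)
    (h : c ≤ 0 ∨ (0 ≤ c ∧ t ≤ 2 * c)) : 1 ≤ s ^ 2 * AA t c + BB t c ^ 2 := by
  have hB := BB_ge_of_A ht h
  have hB2 : 4 ≤ BB t c ^ 2 := by nlinarith
  rcases h with h | ⟨h, h'⟩
  · have := mul_nonneg (sq_nonneg s) (AA_nonneg_of_neg ht h)
    linarith
  · have := AA_ge_mid hcs ht h h'
    linarith

/-- Region B: `AA` is large. -/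
lemma AA_ge_of_B {t c : ℝ} (hc : 0 ≤ c) (htc : 2 * c ≤ t) :
    12 / 5 * (t * (t - 2 * c)) ≤ AA t c := by
  have ht : 0 ≤ t := by linarith
  have h1 : 0 ≤ t * (t - 2 * c) := mul_nonneg ht (by linarith)
  have h2 : 8 ≤ 8 * (t ^ 2 - t * c + 1) + 3 / 10 * (t - 2 * c) * (t ^ 3 - 8 * c) := by
    have h3 : 0 ≤ (t - 2 * c) * t ^ 3 := mul_nonneg (by linarith) (pow_nonneg ht 3)
    nlinarith [sq_nonneg (8 * t - 26 / 5 * c), sq_nonneg c]
  have h3 : AA t c = 3 / 10 * (t * (t - 2 * c)) *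
      (8 * (t ^ 2 - t * c + 1) + 3 / 10 * (t - 2 * c) * (t ^ 3 - 8 * c)) := by
    unfold AA; ring
  rw [h3]
  nlinarith [mul_le_mul_of_nonneg_left h2 h1]

lemma BB_one (t : ℝ) : BB t 1 = -(3 / 10) * (t - 4) * (t ^ 2 + t + 4) := by
  unfold BB; ring

lemma pos_of_nonneg {t c s : ℝ} (hcs : c ^ 2 + s ^ 2 = 1) (ht : 0 ≤ t)
    (h : ¬ (s = 0 ∧ t * c = 4)) : 0 < s ^ 2 * AA t c + BB t c ^ 2 := by
  by_cases hA : c ≤ 0 ∨ (0 ≤ c ∧ t ≤ 2 * c)
  · have := F_ge_of_A hcs ht hA; linarith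
  · push Not at hA
    obtain ⟨hc, hA⟩ := hA
    have htc := hA hc.le
    have h1 := AA_ge_of_B hc.le htc.le
    have h2 : 0 < t * (t - 2 * c) := mul_pos (by linarith) (by linarith)
    by_cases hs : s = 0
    · have hc1 : c = 1 := by
        rw [hs] at hcs
        nlinarith
      subst hc1
      have h3 : t ≠ 4 := fun h4 => h ⟨hs, by rw [h4]; norm_num⟩
      have h4 : BB t 1 ≠ 0 := by
        rw [BB_one]
        have h5 : t - 4 ≠ 0 := sub_ne_zero.2 h3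
        have h6 : t ^ 2 + t + 4 ≠ 0 := by positivity
        exact mul_ne_zero (mul_ne_zero (by norm_num) h5) h6
      have h5 : 0 < BB t 1 ^ 2 := by positivity
      rw [hs]
      linarith
    · have h3 : 0 < s ^ 2 := by positivity
      have h4 : 0 < s ^ 2 * AA t c := mul_pos h3 (by linarith)
      nlinarith [sq_nonneg (BB t c)]

/-- The quantitative inequality for `t ≥ 0`. -/
lemma quant_of_nonneg {R : ℝ} (hR : 1 ≤ R) {t c s : ℝ} (hcs : c ^ 2 + s ^ 2 = 1) (ht : 0 ≤ t)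
    (htR : t ≤ R) :
    (t ^ 2 + 2 * t * c + 1 - 25) ^ 2 + t ^ 2 * s ^ 2 ≤
      20005 * R ^ 8 * (s ^ 2 * AA t c + BB t c ^ 2) := by
  have hc1 : c ≤ 1 := by nlinarith [sq_nonneg s]
  have hc1' : -1 ≤ c := by nlinarith [sq_nonneg s]
  have hs1 : s ^ 2 ≤ 1 := by nlinarith [sq_nonneg c]
  have hs0 : 0 ≤ s ^ 2 := sq_nonneg s
  have hR2 : R ^ 2 ≤ R ^ 8 := pow_le_pow_right₀ hR (by norm_num)
  have hR4 : R ^ 4 ≤ R ^ 8 := pow_le_pow_right₀ hR (by norm_num)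
  have hR0 : 1 ≤ R ^ 8 := one_le_pow₀ hR
  have ht2 : t ^ 2 ≤ R ^ 2 := by nlinarith
  have hts : t ^ 2 * s ^ 2 ≤ R ^ 2 := by nlinarith [mul_le_mul ht2 hs1 hs0 (by positivity)]
  set F := s ^ 2 * AA t c + BB t c ^ 2 with hF
  by_cases hA : c ≤ 0 ∨ (0 ≤ c ∧ t ≤ 2 * c)
  · have hF1 : 1 ≤ F := F_ge_of_A hcs ht hA
    have h1 : (t ^ 2 + 2 * t * c + 1 - 25) ^ 2 ≤ 729 * R ^ 4 := by
      have h2 : |t ^ 2 + 2 * t * c + 1 - 25| ≤ 27 * R ^ 2 := by
        rw [abs_le]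
        constructor
        · nlinarith [mul_nonneg ht (by linarith : (0 : ℝ) ≤ 1 + c), sq_nonneg t]
        · nlinarith [mul_nonneg ht (by linarith : (0 : ℝ) ≤ 1 - c), sq_nonneg t]
      calc (t ^ 2 + 2 * t * c + 1 - 25) ^ 2 = |t ^ 2 + 2 * t * c + 1 - 25| ^ 2 := (sq_abs _).symm
        _ ≤ (27 * R ^ 2) ^ 2 := pow_le_pow_left₀ (abs_nonneg _) h2 2
        _ = 729 * R ^ 4 := by ring
    have h3 : 20005 * R ^ 8 * 1 ≤ 20005 * R ^ 8 * F :=
      mul_le_mul_of_nonneg_left hF1 (by positivity)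
    nlinarith
  · push Not at hA
    obtain ⟨hc, hA⟩ := hA
    have htc := hA hc.le
    have hAA := AA_ge_of_B hc.le htc.le
    have htt : 0 < t * (t - 2 * c) := mul_pos (by linarith) (by linarith)
    have hAA0 : 0 ≤ s ^ 2 * AA t c := mul_nonneg hs0 (by linarith)
    have hFB : BB t c ^ 2 ≤ F := by rw [hF]; linarith
    have hF0 : 0 ≤ F := le_trans (sq_nonneg _) hFB
    have hFA : s ^ 2 * AA t c ≤ F := by rw [hF]; nlinarith [sq_nonneg (BB t c)]
    -- (a)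
    have ha : t ^ 2 * s ^ 2 ≤ 5 * R ^ 2 * F := by
      by_cases h : t / 10 ≤ t - 2 * c
      · have h1 : 6 / 25 * t ^ 2 ≤ AA t c := by nlinarith [mul_le_mul_of_nonneg_left h ht]
        have h2 : 6 / 25 * (t ^ 2 * s ^ 2) ≤ F := by
          nlinarith [mul_le_mul_of_nonneg_left h1 hs0]
        have h3 : 1 * F ≤ R ^ 2 * F := mul_le_mul_of_nonneg_right (one_le_pow₀ hR) hF0
        nlinarith
      · push Not at h
        have hB : 1 ≤ BB t c := by
          rw [BB_eq]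
          have h1 : t ≤ 3 := by linarith
          have h2 : c * t ^ 2 * (t - 2 * c) ≤ t ^ 2 := by
            have h3 : c * (t - 2 * c) ≤ 1 := by nlinarith
            nlinarith [mul_le_mul_of_nonneg_left h3 (sq_nonneg t)]
          nlinarith [sq_nonneg c]
        have h2 : 1 ≤ F := by nlinarith
        nlinarith [mul_le_mul_of_nonneg_left h2 (by positivity : (0 : ℝ) ≤ 5 * R ^ 2)]
    -- (b)
    have hb : s ^ 4 ≤ F := by
      have h0 : s ^ 4 ≤ s ^ 2 := by nlinarith [mul_le_mul_of_nonneg_left hs1 hs0]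
      by_cases h : 1 ≤ t * (t - 2 * c)
      · nlinarith [mul_le_mul_of_nonneg_left (le_trans (by linarith : (1 : ℝ) ≤ _) hAA) hs0]
      · push Not at h
        have hB : 1 ≤ BB t c := by
          rw [BB_eq]
          have h2 : c * t ^ 2 * (t - 2 * c) ≤ t := by
            have h3 : c * (t * (t - 2 * c)) ≤ 1 := by nlinarith
            have h4 := mul_le_mul_of_nonneg_left h3 ht
            calc c * t ^ 2 * (t - 2 * c) = t * (c * (t * (t - 2 * c))) := by ring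
              _ ≤ t * 1 := h4
              _ = t := mul_one t
          have h5 : t ≤ t ^ 2 + 1 / 4 := by
            have := sq_nonneg (t - 1 / 2)
            nlinarith
          have h6 : 0 ≤ c ^ 2 := sq_nonneg c
          linarith
        have hB2 : 1 ≤ BB t c ^ 2 := one_le_pow₀ hB
        linarith
    have hc2 : (1 - c) ^ 2 ≤ s ^ 4 := by
      have h1 : 1 - c ≤ s ^ 2 := by nlinarith
      calc (1 - c) ^ 2 ≤ (s ^ 2) ^ 2 := pow_le_pow_left₀ (by linarith) h1 2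
        _ = s ^ 4 := by ring
    -- (c), (d)
    have hdiff : BB t 1 = BB t c + (1 - c) * (14 / 5 * (1 + c) - 3 / 10 * t ^ 3 +
        3 / 5 * (1 + c) * t ^ 2) := by
      unfold BB; ring
    have hR3 : R ≤ R ^ 3 := by
      calc R = R ^ 1 := (pow_one R).symm
        _ ≤ R ^ 3 := pow_le_pow_right₀ hR (by norm_num)
    have hR23 : R ^ 2 ≤ R ^ 3 := pow_le_pow_right₀ hR (by norm_num)
    have ht3 : t ^ 3 ≤ R ^ 3 := pow_le_pow_left₀ ht htR 3
    have hco : |14 / 5 * (1 + c) - 3 / 10 * t ^ 3 + 3 / 5 * (1 + c) * t ^ 2| ≤ 12 * R ^ 3 := by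
      have h1 : 0 ≤ t ^ 3 := pow_nonneg ht 3
      have h2 : 0 ≤ (1 + c) * t ^ 2 := mul_nonneg (by linarith) (sq_nonneg t)
      have h3 : (1 + c) * t ^ 2 ≤ 2 * R ^ 2 := by nlinarith [sq_nonneg t]
      rw [abs_le]
      constructor
      · nlinarith
      · nlinarith
    have hd : BB t 1 ^ 2 ≤ 290 * R ^ 6 * F := by
      have h1 : ((1 - c) * (14 / 5 * (1 + c) - 3 / 10 * t ^ 3 + 3 / 5 * (1 + c) * t ^ 2)) ^ 2
          ≤ 144 * R ^ 6 * F := by
        rw [mul_pow]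
        have h2 : (14 / 5 * (1 + c) - 3 / 10 * t ^ 3 + 3 / 5 * (1 + c) * t ^ 2) ^ 2
            ≤ 144 * R ^ 6 := by
          calc _ = |14 / 5 * (1 + c) - 3 / 10 * t ^ 3 + 3 / 5 * (1 + c) * t ^ 2| ^ 2 :=
                (sq_abs _).symm
            _ ≤ (12 * R ^ 3) ^ 2 := pow_le_pow_left₀ (abs_nonneg _) hco 2
            _ = 144 * R ^ 6 := by ring
        have h3 : (1 - c) ^ 2 ≤ F := le_trans hc2 hb
        calc _ ≤ F * (144 * R ^ 6) := mul_le_mul h3 h2 (sq_nonneg _) hF0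
          _ = 144 * R ^ 6 * F := by ring
      have h4 : 1 * F ≤ R ^ 6 * F := mul_le_mul_of_nonneg_right (one_le_pow₀ hR) hF0
      rw [hdiff]
      nlinarith [sq_nonneg (BB t c - (1 - c) * (14 / 5 * (1 + c) - 3 / 10 * t ^ 3 +
        3 / 5 * (1 + c) * t ^ 2))]
    have he : (t - 4) ^ 2 ≤ 202 * R ^ 6 * F := by
      have h1 : 36 / 25 * (t - 4) ^ 2 ≤ BB t 1 ^ 2 := by
        rw [BB_one]
        have h2 : 4 ≤ t ^ 2 + t + 4 := by nlinarith
        have h3 : 16 ≤ (t ^ 2 + t + 4) ^ 2 := by nlinarith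
        nlinarith [mul_le_mul_of_nonneg_left h3 (sq_nonneg (t - 4))]
      nlinarith [mul_nonneg (by positivity : (0 : ℝ) ≤ R ^ 6) hF0]
    have hf : (t ^ 2 + 2 * t * c + 1 - 25) ^ 2 ≤ 20000 * R ^ 8 * F := by
      have h1 : t ^ 2 + 2 * t * c + 1 - 25 = (t - 4) * (t + 6) - 2 * t * (1 - c) := by ring
      have h2 : (t + 6) ^ 2 ≤ 49 * R ^ 2 := by
        calc (t + 6) ^ 2 ≤ (7 * R) ^ 2 := pow_le_pow_left₀ (by linarith) (by linarith) 2
          _ = 49 * R ^ 2 := by ring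
      have h3 : ((t - 4) * (t + 6)) ^ 2 ≤ 9898 * R ^ 8 * F := by
        rw [mul_pow]
        calc _ ≤ (202 * R ^ 6 * F) * (49 * R ^ 2) :=
              mul_le_mul he h2 (sq_nonneg _) (by positivity)
          _ = 9898 * R ^ 8 * F := by ring
      have h4 : (2 * t * (1 - c)) ^ 2 ≤ 4 * R ^ 8 * F := by
        have h5 : (1 - c) ^ 2 ≤ F := le_trans hc2 hb
        have h6 : (2 * t) ^ 2 ≤ 4 * R ^ 8 := by nlinarith
        rw [mul_pow]
        exact mul_le_mul h6 h5 (sq_nonneg _) (by positivity)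
      have h7 : ((t - 4) * (t + 6) - 2 * t * (1 - c)) ^ 2 ≤
          2 * ((t - 4) * (t + 6)) ^ 2 + 2 * (2 * t * (1 - c)) ^ 2 := by
        have := sq_nonneg ((t - 4) * (t + 6) + 2 * t * (1 - c))
        linarith
      have h8 : 0 ≤ R ^ 8 * F := mul_nonneg (by positivity) hF0
      rw [h1]
      linarith
    have hR28 : R ^ 2 * F ≤ R ^ 8 * F := mul_le_mul_of_nonneg_right hR2 hF0
    linarith

end H63

/-- COREINEQ. -/
theorem core_ineq : CoreIneqStatement := by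
  refine ⟨?_, ?_⟩
  · intro t c s hcs h
    rcases le_total 0 t with ht | ht
    · exact H63.pos_of_nonneg hcs ht h
    · have := H63.pos_of_nonneg (t := -t) (c := -c) (s := s) (by nlinarith) (by linarith)
        (fun h' => h ⟨h'.1, by linarith [h'.2, neg_mul_neg t c]⟩)
      rwa [H63.AA_neg, H63.BB_neg] at this
  · intro R
    set R' := |R| + 1 with hR'
    have hR1 : 1 ≤ R' := by rw [hR']; linarith [abs_nonneg R]
    refine ⟨1 / (20005 * R' ^ 8), by positivity, ?_⟩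
    intro t c s hcs htR
    have htR' : |t| ≤ R' := by rw [hR']; linarith [le_abs_self R]
    have key : (t ^ 2 + 2 * t * c + 1 - 25) ^ 2 + t ^ 2 * s ^ 2 ≤
        20005 * R' ^ 8 * (s ^ 2 * AA t c + BB t c ^ 2) := by
      rcases le_total 0 t with ht | ht
      · exact H63.quant_of_nonneg hR1 hcs ht (le_trans (le_abs_self t) htR')
      · have := H63.quant_of_nonneg (t := -t) (c := -c) (s := s) hR1 (by nlinarith)
          (by linarith) (le_trans (neg_le_abs t) htR')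
        rw [H63.AA_neg, H63.BB_neg] at this
        have e : (-t) ^ 2 + 2 * (-t) * (-c) + 1 - 25 = t ^ 2 + 2 * t * c + 1 - 25 := by ring
        rw [e, neg_sq] at this
        exact this
    rw [div_mul_eq_mul_div, one_mul, div_le_iff₀ (by positivity)]
    linarith

end Pool.Agent.Tight
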