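import Pool.Agent.Lib.MP_a31e1e_gt.Interfaces

/-!
# Project TIGHT, module COREZERO
-/

open Set Complex

namespace Pool.Agent.Tight

namespace H63

/-- the product formula -/
lemma prod_formula (a b c W : ℂ) (h : a * b * c = 1) :
    (W - ((a * b + a * c + b * c) * a - (a + b + c) * (b * c))) *
      (W - ((a * b + a * c + b * c) * b - (a + b + c) * (a * c))) *
      (W - ((a * b + a * c + b * c) * c - (a + b + c) * (a * b))) =
    W ^ 3 - ((a + b + c) ^ 2 * (a * b + a * c + b * c) ^ 2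
      - 3 * (a + b + c) * (a * b + a * c + b * c) - (a + b + c) ^ 3
      - (a * b + a * c + b * c) ^ 3) * W
      - ((a + b + c) * (a * b + a * c + b * c) - 1) *
        ((a + b + c) ^ 3 - (a * b + a * c + b * c) ^ 3) := by
  have key : (W - ((a * b + a * c + b * c) * a - (a + b + c) * (b * c))) *
      (W - ((a * b + a * c + b * c) * b - (a + b + c) * (a * c))) *
      (W - ((a * b + a * c + b * c) * c - (a + b + c) * (a * b))) =
    W ^ 3 - ((a + b + c) ^ 2 * (a * b + a * c + b * c) ^ 2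
      - 3 * (a + b + c) * (a * b + a * c + b * c) * (a * b * c)
      - (a + b + c) ^ 3 * (a * b * c)
      - (a * b + a * c + b * c) ^ 3) * W
      - ((a + b + c) * (a * b + a * c + b * c) - (a * b * c)) *
        ((a + b + c) ^ 3 * (a * b * c) - (a * b + a * c + b * c) ^ 3) := by ring
  rw [key, h]; ring

/-- the three roots of a monic complex cubic -/
lemma exists_roots (x y : ℂ) : ∃ a b c : ℂ, a + b + c = x ∧ a * b + a * c + b * c = y ∧
    a * b * c = 1 := by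
  obtain ⟨a, ha⟩ : ∃ a : ℂ, a ^ 3 - x * a ^ 2 + y * a - 1 = 0 := by
    have hdeg : (Polynomial.X ^ 3 - Polynomial.C x * Polynomial.X ^ 2 +
        Polynomial.C y * Polynomial.X - 1 : Polynomial ℂ).degree ≠ 0 := by
      have : (Polynomial.X ^ 3 - Polynomial.C x * Polynomial.X ^ 2 +
        Polynomial.C y * Polynomial.X - 1 : Polynomial ℂ).degree = 3 := by
        compute_degree!
      rw [this]; decide
    obtain ⟨a, ha⟩ := IsAlgClosed.exists_root _ hdeg
    refine ⟨a, ?_⟩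
    simpa [Polynomial.IsRoot] using ha
  obtain ⟨b, hb⟩ : ∃ b : ℂ, b ^ 2 + (a - x) * b + (a ^ 2 - x * a + y) = 0 := by
    have hdeg : (Polynomial.X ^ 2 + Polynomial.C (a - x) * Polynomial.X +
        Polynomial.C (a ^ 2 - x * a + y) : Polynomial ℂ).degree ≠ 0 := by
      have : (Polynomial.X ^ 2 + Polynomial.C (a - x) * Polynomial.X +
        Polynomial.C (a ^ 2 - x * a + y) : Polynomial ℂ).degree = 2 := by
        compute_degree!
      rw [this]; decide
    obtain ⟨b, hb⟩ := IsAlgClosed.exists_root _ hdeg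
    refine ⟨b, ?_⟩
    simpa [Polynomial.IsRoot] using hb
  refine ⟨a, b, x - a - b, by ring, ?_, ?_⟩
  · linear_combination (-1 : ℂ) * hb
  · linear_combination ha - a * hb

/-- the main step: one root of the cubic -/
lemma root_case (ξ ε η : ℂ) (ω : ℝ) (hη : ε * η = 1)
    (h1 : ε ^ 3 - ξ * ε ^ 2 + (starRingEnd ℂ) ξ * ε - 1 = 0)
    (h2 : 2 * I * ω = (starRingEnd ℂ) ξ * ε - ξ * η) :
    ∃ u t : ℝ, ξ = exp (2 * u * I) + t * exp (-(u * I)) ∧ ω = t * Real.sin (3 * u) := by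
  have hε0 : ε ≠ 0 := by
    intro h; rw [h, zero_mul] at hη; exact zero_ne_one hη
  set ε' := (starRingEnd ℂ) ε with hε'
  set ξ' := (starRingEnd ℂ) ξ with hξ'
  set η' := (starRingEnd ℂ) η with hη'
  have h1' : ε' ^ 3 - ξ' * ε' ^ 2 + ξ * ε' - 1 = 0 := by
    have := congrArg (starRingEnd ℂ) h1
    simp only [hξ', map_sub, map_add, map_mul, map_pow, conj_conj, map_one, map_zero] at this
    exact this
  have h2' : -(2 * I * ω) = ξ * ε' - ξ' * η' := by
    have := congrArg (starRingEnd ℂ) h2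
    simp only [hξ', map_sub, map_mul, conj_conj, conj_I, conj_ofReal, map_ofNat] at this
    calc -(2 * I * (ω : ℂ)) = 2 * -I * (ω : ℂ) := by ring
      _ = _ := this
  have hηη : ε' * η' = 1 := by
    have := congrArg (starRingEnd ℂ) hη
    simpa using this
  have hnorm : ε * ε' = (normSq ε : ℂ) := by rw [hε', mul_conj]
  -- the norm of `ε` is one
  have hone : normSq ε = 1 := by
    by_contra hne
    -- `ξ' ε = - ξ ε'`
    have h3 : (ξ' * ε + ξ * ε') * (ε * ε' - 1) = 0 := by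
      -- from `2iω = ξ'ε - ξη` and its conjugate
      have h4 : ξ' * ε - ξ * η + (ξ * ε' - ξ' * η') = 0 := by
        rw [← h2, ← h2']; ring
      -- multiply by `ε ε'`
      linear_combination (ε * ε') * h4 + ξ * ε' * hη + ξ' * ε * hηη
    have h4 : ξ' * ε = -(ξ * ε') := by
      rcases mul_eq_zero.1 h3 with h | h
      · linear_combination h
      · exfalso; apply hne
        have : (normSq ε : ℂ) = 1 := by rw [← hnorm]; linear_combination h
        exact_mod_cast this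
    -- `ξ (ε² + ε') = ε³ - 1`
    have h5 : ξ * (ε ^ 2 + ε') = ε ^ 3 - 1 := by linear_combination (-1 : ℂ) * h1 + h4
    -- multiply by `ε' (ε'^2 + ε)`
    have h6 : (ξ * ε') * ((ε ^ 2 + ε') * (ε' ^ 2 + ε)) =
        (ε * ε') ^ 3 - ε' ^ 3 + (ε * ε') * ε ^ 3 - ε * ε' := by
      linear_combination (ε' * (ε' ^ 2 + ε)) * h5
    -- real parts
    have h7 : (ξ * ε').re = 0 := by
      have h8 : (starRingEnd ℂ) (ξ * ε') = -(ξ * ε') := by
        rw [map_mul, hε', conj_conj, ← hε', ← h4]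
      have h9 := congrArg re h8
      rw [conj_re, neg_re] at h9
      linarith
    have h8 : ((ε ^ 2 + ε') * (ε' ^ 2 + ε)) = (normSq (ε ^ 2 + ε') : ℂ) := by
      rw [← mul_conj, hε']
      simp
    have h9 : ((ξ * ε') * ((ε ^ 2 + ε') * (ε' ^ 2 + ε))).re = 0 := by
      rw [h8, re_mul_ofReal, h7, zero_mul]
    set r := normSq ε with hr
    have hr0 : 0 < r := normSq_pos.2 hε0
    have h10 : (ε' ^ 3).re = (ε ^ 3).re := by
      rw [hε', ← map_pow, conj_re]
    have h11 : r ^ 3 - (ε ^ 3).re + r * (ε ^ 3).re - r = 0 := by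
      have h12 := h9
      rw [h6, hnorm] at h12
      have e1 : ((r : ℂ) ^ 3 - ε' ^ 3 + (r : ℂ) * ε ^ 3 - (r : ℂ)).re =
          r ^ 3 - (ε' ^ 3).re + r * (ε ^ 3).re - r := by
        rw [sub_re, add_re, sub_re, re_ofReal_mul, ← ofReal_pow, ofReal_re, ofReal_re]
      rw [e1, h10] at h12
      exact h12
    have h12 : (r - 1) * (r * (r + 1) + (ε ^ 3).re) = 0 := by linear_combination h11
    have h13 : r * (r + 1) + (ε ^ 3).re = 0 := by
      rcases mul_eq_zero.1 h12 with h | h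
      · exact absurd (by linarith) hne
      · exact h
    -- `|re ε³| ≤ |ε|³`
    have h14 : |(ε ^ 3).re| ≤ ‖ε‖ ^ 3 := by
      rw [← norm_pow]; exact abs_re_le_norm _
    have h15 : ‖ε‖ ^ 2 = r := by rw [hr, normSq_eq_norm_sq]
    have h16 : 0 < ‖ε‖ := norm_pos_iff.2 hε0
    have h17 : -‖ε‖ ^ 3 ≤ (ε ^ 3).re := (abs_le.1 h14).1
    rw [← h15] at h13
    have h18 : ‖ε‖ ^ 2 * (‖ε‖ ^ 2 + 1) ≤ ‖ε‖ ^ 2 * ‖ε‖ := by nlinarith
    have h19 : ‖ε‖ ^ 2 + 1 ≤ ‖ε‖ := le_of_mul_le_mul_left h18 (by positivity)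
    nlinarith [sq_nonneg (‖ε‖ - 1 / 2)]
  -- polar form
  have hn : ‖ε‖ = 1 := by
    have := normSq_eq_norm_sq ε
    rw [hone] at this
    nlinarith [norm_nonneg ε]
  have hee : ε * ε' = 1 := by rw [hnorm, hone, ofReal_one]
  have hηε : η = ε' := by
    have : ε * (η - ε') = 0 := by linear_combination hη - hee
    rcases mul_eq_zero.1 this with h | h
    · exact absurd h hε0
    · linear_combination h
  set u : ℝ := ε.arg / 2 with hu
  have hε_exp : ε = exp (2 * u * I) := by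
    have h := norm_mul_exp_arg_mul_I ε
    rw [hn, ofReal_one, one_mul] at h
    rw [← h, hu]; congr 1; push_cast; ring
  set e := exp (u * I) with he
  have he2 : e ^ 2 = ε := by
    rw [hε_exp, he, ← exp_nat_mul]; congr 1; push_cast; ring
  set e' := exp (-(u * I)) with he'
  have hee' : e * e' = 1 := by rw [he, he', ← exp_add]; simp
  have hconj : (starRingEnd ℂ) e = e' := by
    rw [he, he', ← exp_conj]; simp
  have hconj' : (starRingEnd ℂ) e' = e := by
    rw [← hconj, conj_conj]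
  have he2' : e' ^ 2 = ε' := by rw [hε', ← he2, map_pow, hconj]
  have hreal : (starRingEnd ℂ) (ξ * e - e ^ 3) = ξ * e - e ^ 3 := by
    rw [map_sub, map_mul, map_pow, hconj, ← hξ']
    -- `e^3 - ξ e + ξ' e' - e'^3 = 0` is `h1` times `e'^3`
    have h3 : e ^ 6 - ξ * e ^ 4 + ξ' * e ^ 2 - 1 = 0 := by
      rw [← he2] at h1; linear_combination h1
    have h4 : e' ^ 3 * (e ^ 6 - ξ * e ^ 4 + ξ' * e ^ 2 - 1) = 0 := by rw [h3, mul_zero]
    have h5 : e' ^ 3 * e ^ 6 = e ^ 3 := by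
      calc e' ^ 3 * e ^ 6 = (e * e') ^ 3 * e ^ 3 := by ring
        _ = e ^ 3 := by rw [hee']; ring
    have h6 : e' ^ 3 * (ξ * e ^ 4) = ξ * e := by
      calc e' ^ 3 * (ξ * e ^ 4) = (e * e') ^ 3 * (ξ * e) := by ring
        _ = ξ * e := by rw [hee']; ring
    have h7 : e' ^ 3 * (ξ' * e ^ 2) = ξ' * e' := by
      calc e' ^ 3 * (ξ' * e ^ 2) = (e * e') ^ 2 * (ξ' * e') := by ring
        _ = ξ' * e' := by rw [hee']; ring
    linear_combination h4 - h5 + h6 - h7
  obtain ⟨t, ht⟩ := conj_eq_iff_real.1 hreal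
  refine ⟨u, t, ?_, ?_⟩
  · rw [← hε_exp, ← ht, ← he', ← he2]
    linear_combination (-(ξ - e ^ 2)) * hee'
  · have h3 : (2 * I * ω : ℂ) = t * (e ^ 3 - e' ^ 3) := by
      rw [h2, hηε]
      have h4 : ξ' = ε' + t * e := by
        have h5 : ξ = ε + t * e' := by
          rw [← ht, ← he2]; linear_combination (-(ξ - e ^ 2)) * hee'
        rw [hξ', h5, map_add, map_mul, conj_ofReal, hconj']
      have h5 : ξ = ε + t * e' := by
        rw [← ht, ← he2]; linear_combination (-(ξ - e ^ 2)) * hee'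
      rw [h4, h5, ← he2, ← he2']
      linear_combination (0 : ℂ) * hee'
    have h4 : e ^ 3 - e' ^ 3 = 2 * I * Real.sin (3 * u) := by
      have h5 : e ^ 3 = exp ((3 * u : ℝ) * I) := by
        rw [he, ← exp_nat_mul]; congr 1; push_cast; ring
      have h6 : e' ^ 3 = exp (-((3 * u : ℝ) * I)) := by
        rw [he', ← exp_nat_mul]; congr 1; push_cast; ring
      rw [h5, h6, ofReal_sin, Complex.sin]
      have hI : I * I = -1 := I_mul_I
      have h7 : exp (-((3 * u : ℝ) * I)) = exp (-((3 * u : ℝ) : ℂ) * I) := by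
        congr 1; ring
      rw [h7]
      linear_combination (-(exp (((3 * u : ℝ) : ℂ) * I)) +
        exp (-((3 * u : ℝ) : ℂ) * I)) * (-1 : ℂ) * hI
    rw [h4] at h3
    have h5 : (2 * I : ℂ) * (ω - t * Real.sin (3 * u)) = 0 := by linear_combination h3
    have h6 : (ω - t * Real.sin (3 * u) : ℂ) = 0 := by
      rcases mul_eq_zero.1 h5 with h | h
      · exfalso; simp at h
      · exact h
    have h7 : ((ω - t * Real.sin (3 * u) : ℝ) : ℂ) = 0 := by
      rw [ofReal_sub, ofReal_mul]; exact h6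
    have h8 : ω - t * Real.sin (3 * u) = 0 := by exact_mod_cast h7
    linarith

/-- the cubic form in real coordinates -/
lemma real_case (x y ω : ℝ)
    (h : 4 * ω ^ 3 + ((x ^ 2 + y ^ 2) ^ 2 - 3 * (x ^ 2 + y ^ 2) - 2 * (x ^ 3 - 3 * x * y ^ 2)) * ω
      - (x ^ 2 + y ^ 2 - 1) * (y ^ 3 - 3 * x ^ 2 * y) = 0) :
    ∃ u t : ℝ, x = Real.cos (2 * u) + t * Real.cos u ∧ y = Real.sin (2 * u) - t * Real.sin u ∧
      ω = t * Real.sin (3 * u) := by
  set ξ : ℂ := x + y * I with hξ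
  have hconj : (starRingEnd ℂ) ξ = x - y * I := by
    rw [hξ, map_add, map_mul, conj_ofReal, conj_ofReal, conj_I]; ring
  obtain ⟨a, b, c, h1, h2, h3⟩ := exists_roots ξ ((starRingEnd ℂ) ξ)
  have hprod := prod_formula a b c (2 * I * ω) h3
  have hC : (4 * (ω : ℂ) ^ 3 + (((x : ℂ) ^ 2 + (y : ℂ) ^ 2) ^ 2 - 3 * ((x : ℂ) ^ 2 + (y : ℂ) ^ 2)
      - 2 * ((x : ℂ) ^ 3 - 3 * x * (y : ℂ) ^ 2)) * ω
      - ((x : ℂ) ^ 2 + (y : ℂ) ^ 2 - 1) * ((y : ℂ) ^ 3 - 3 * (x : ℂ) ^ 2 * y)) = 0 := by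
    exact_mod_cast congrArg (fun r : ℝ => (r : ℂ)) h
  have hI : I ^ 2 = -1 := I_sq
  rw [h1, h2] at hprod
  have hzero : (2 * I * (ω : ℂ)) ^ 3 - (ξ ^ 2 * (starRingEnd ℂ) ξ ^ 2
      - 3 * ξ * (starRingEnd ℂ) ξ - ξ ^ 3 - (starRingEnd ℂ) ξ ^ 3) * (2 * I * ω)
      - (ξ * (starRingEnd ℂ) ξ - 1) * (ξ ^ 3 - (starRingEnd ℂ) ξ ^ 3) = 0 := by
    have e1 : ξ * (starRingEnd ℂ) ξ = x ^ 2 + y ^ 2 := by
      rw [hconj, hξ]; linear_combination (-(y : ℂ) ^ 2) * hI
    have e2 : ξ ^ 3 + (starRingEnd ℂ) ξ ^ 3 = 2 * (x ^ 3 - 3 * x * y ^ 2) := by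
      rw [hconj, hξ]; linear_combination (6 * (x : ℂ) * (y : ℂ) ^ 2) * hI
    have e3 : ξ ^ 3 - (starRingEnd ℂ) ξ ^ 3 = -2 * I * (y ^ 3 - 3 * x ^ 2 * y) := by
      rw [hconj, hξ]; linear_combination (2 * (y : ℂ) ^ 3 * I) * hI
    have e4 : (2 * I * (ω : ℂ)) ^ 3 = -2 * I * (4 * (ω : ℂ) ^ 3) := by
      linear_combination (8 * I * (ω : ℂ) ^ 3) * hI
    have e5 : ξ ^ 2 * (starRingEnd ℂ) ξ ^ 2 - 3 * ξ * (starRingEnd ℂ) ξ - ξ ^ 3
        - (starRingEnd ℂ) ξ ^ 3 = (ξ * (starRingEnd ℂ) ξ) ^ 2 - 3 * (ξ * (starRingEnd ℂ) ξ)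
        - (ξ ^ 3 + (starRingEnd ℂ) ξ ^ 3) := by ring
    rw [e5, e1, e2, e3, e4]
    linear_combination (-2 * I) * hC
  rw [hzero] at hprod
  -- a root of the cubic with the given value
  have hex : ∃ ε η : ℂ, ε * η = 1 ∧ ε ^ 3 - ξ * ε ^ 2 + (starRingEnd ℂ) ξ * ε - 1 = 0 ∧
      2 * I * (ω : ℂ) = (starRingEnd ℂ) ξ * ε - ξ * η := by
    rcases mul_eq_zero.1 hprod with hp | hp
    · rcases mul_eq_zero.1 hp with hp | hp
      · exact ⟨a, b * c, by rw [← h3]; ring,
          by linear_combination a ^ 2 * h1 - a * h2 + h3, by linear_combination hp⟩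
      · exact ⟨b, a * c, by rw [← h3]; ring,
          by linear_combination b ^ 2 * h1 - b * h2 + h3, by linear_combination hp⟩
    · exact ⟨c, a * b, by rw [← h3]; ring,
        by linear_combination c ^ 2 * h1 - c * h2 + h3, by linear_combination hp⟩
  obtain ⟨ε, η, g1, g2, g3⟩ := hex
  obtain ⟨u, t, hu, ht⟩ := root_case ξ ε η ω g1 g2 g3
  refine ⟨u, t, ?_, ?_, ht⟩
  · have h4 : ξ.re = (exp (2 * (u : ℂ) * I) + t * exp (-((u : ℂ) * I))).re := by rw [← hu]
    have e1 : (exp (2 * (u : ℂ) * I)).re = Real.cos (2 * u) := by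
      have : (2 * (u : ℂ) * I) = ((2 * u : ℝ) : ℂ) * I := by push_cast; ring
      rw [this, exp_ofReal_mul_I_re]
    have e2 : ((t : ℂ) * exp (-((u : ℂ) * I))).re = t * Real.cos u := by
      have : -((u : ℂ) * I) = ((-u : ℝ) : ℂ) * I := by push_cast; ring
      rw [re_ofReal_mul, this, exp_ofReal_mul_I_re, Real.cos_neg]
    have hx : ξ.re = x := by rw [hξ]; simp
    rw [hx, add_re, e1, e2] at h4
    exact h4
  · have h4 : ξ.im = (exp (2 * (u : ℂ) * I) + t * exp (-((u : ℂ) * I))).im := by rw [← hu]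
    have e1 : (exp (2 * (u : ℂ) * I)).im = Real.sin (2 * u) := by
      have : (2 * (u : ℂ) * I) = ((2 * u : ℝ) : ℂ) * I := by push_cast; ring
      rw [this, exp_ofReal_mul_I_im]
    have e2 : ((t : ℂ) * exp (-((u : ℂ) * I))).im = -(t * Real.sin u) := by
      have : -((u : ℂ) * I) = ((-u : ℝ) : ℂ) * I := by push_cast; ring
      rw [im_ofReal_mul, this, exp_ofReal_mul_I_im, Real.sin_neg]; ring
    have hy : ξ.im = y := by rw [hξ]; simp
    rw [hy, add_im, e1, e2] at h4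
    rw [h4]; ring

/-- the converse -/
lemma real_case' (u t : ℝ) :
    4 * (t * Real.sin (3 * u)) ^ 3 +
      (((Real.cos (2 * u) + t * Real.cos u) ^ 2 + (Real.sin (2 * u) - t * Real.sin u) ^ 2) ^ 2
        - 3 * ((Real.cos (2 * u) + t * Real.cos u) ^ 2 + (Real.sin (2 * u) - t * Real.sin u) ^ 2)
        - 2 * ((Real.cos (2 * u) + t * Real.cos u) ^ 3 -
          3 * (Real.cos (2 * u) + t * Real.cos u) * (Real.sin (2 * u) - t * Real.sin u) ^ 2)) *
        (t * Real.sin (3 * u))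
      - ((Real.cos (2 * u) + t * Real.cos u) ^ 2 + (Real.sin (2 * u) - t * Real.sin u) ^ 2 - 1) *
        ((Real.sin (2 * u) - t * Real.sin u) ^ 3 -
          3 * (Real.cos (2 * u) + t * Real.cos u) ^ 2 * (Real.sin (2 * u) - t * Real.sin u))
      = 0 := by
  have hc3 : Real.cos (3 * u) = Real.cos u ^ 3 - 3 * Real.cos u * Real.sin u ^ 2 := by
    rw [Real.cos_three_mul]
    linear_combination (3 * Real.cos u) * Real.sin_sq_add_cos_sq u
  have hs3 : Real.sin (3 * u) = 3 * Real.cos u ^ 2 * Real.sin u - Real.sin u ^ 3 := by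
    rw [Real.sin_three_mul]
    linear_combination (-3 * Real.sin u) * Real.sin_sq_add_cos_sq u
  have hc2 : Real.cos (2 * u) =
      Real.cos (3 * u) * Real.cos u + Real.sin (3 * u) * Real.sin u := by
    rw [← Real.cos_sub]; congr 1; ring
  have hs2 : Real.sin (2 * u) =
      Real.sin (3 * u) * Real.cos u - Real.cos (3 * u) * Real.sin u := by
    rw [← Real.sin_sub]; congr 1; ring
  have hpq : Real.cos u ^ 2 + Real.sin u ^ 2 = 1 := Real.cos_sq_add_sin_sq _
  have hcs : Real.cos (3 * u) ^ 2 + Real.sin (3 * u) ^ 2 = 1 := Real.cos_sq_add_sin_sq _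
  set X := Real.cos (2 * u) + t * Real.cos u with hX
  set Y := Real.sin (2 * u) - t * Real.sin u with hY
  rw [hc2] at hX
  rw [hs2] at hY
  generalize Real.cos (3 * u) = c at *
  generalize Real.sin (3 * u) = s at *
  generalize Real.cos u = p at *
  generalize Real.sin u = q at *
  have hX' : X = (c + t) * p + s * q := by rw [hX]; ring
  have hY' : Y = s * p - (c + t) * q := by rw [hY]; ring
  have hN : X ^ 2 + Y ^ 2 = 1 + 2 * t * c + t ^ 2 := by
    have : X ^ 2 + Y ^ 2 = (p ^ 2 + q ^ 2) * ((c + t) ^ 2 + s ^ 2) := by rw [hX', hY']; ring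
    rw [this, hpq]; linear_combination hcs
  have hD : X ^ 3 - 3 * X * Y ^ 2 = (c ^ 2 - s ^ 2) + 3 * c * t + 3 * t ^ 2 + t ^ 3 * c := by
    have : X ^ 3 - 3 * X * Y ^ 2 = ((c + t) ^ 3 - 3 * (c + t) * s ^ 2) * (p ^ 3 - 3 * p * q ^ 2) +
        (3 * (c + t) ^ 2 * s - s ^ 3) * (3 * p ^ 2 * q - q ^ 3) := by rw [hX', hY']; ring
    rw [this, ← hc3, ← hs3]
    linear_combination (c ^ 2 - s ^ 2 + 3 * c * t + 3 * t ^ 2) * hcs
  have hC : Y ^ 3 - 3 * X ^ 2 * Y = -2 * c * s - 3 * s * t + t ^ 3 * s := by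
    have : Y ^ 3 - 3 * X ^ 2 * Y = -((3 * (c + t) ^ 2 * s - s ^ 3) * (p ^ 3 - 3 * p * q ^ 2)) +
        ((c + t) ^ 3 - 3 * (c + t) * s ^ 2) * (3 * p ^ 2 * q - q ^ 3) := by rw [hX', hY']; ring
    rw [this, ← hc3, ← hs3]
    linear_combination (-2 * c * s - 3 * s * t) * hcs
  rw [hN, hD, hC]
  linear_combination (2 * s * t + 4 * s * t ^ 3) * hcs

end H63

open H63 in
/-- COREZERO. -/
theorem core_zero : CoreZeroStatement := by
  intro l hl x
  have hl0 : l ≠ 0 := hl.ne'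
  -- scaled coordinates
  obtain ⟨X, hX⟩ : ∃ X, x 0 = l * X := ⟨x 0 / l, by field_simp⟩
  obtain ⟨Y, hY⟩ : ∃ Y, x 1 = l * Y := ⟨x 1 / l, by field_simp⟩
  obtain ⟨ω, hω⟩ : ∃ ω, WW x = -(10 * l ^ 3 * ω) := ⟨-(WW x) / (10 * l ^ 3), by field_simp⟩
  have hGG : GG l x = -(250 * l ^ 9) * (4 * ω ^ 3 +
      ((X ^ 2 + Y ^ 2) ^ 2 - 3 * (X ^ 2 + Y ^ 2) - 2 * (X ^ 3 - 3 * X * Y ^ 2)) * ω
      - (X ^ 2 + Y ^ 2 - 1) * (Y ^ 3 - 3 * X ^ 2 * Y)) := by
    unfold GG
    rw [hω]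
    unfold nn dd cc
    rw [hX, hY]
    ring
  have hne : -(250 * l ^ 9) ≠ 0 := by
    have : 0 < l ^ 9 := by positivity
    nlinarith
  constructor
  · intro h
    rw [hGG] at h
    have h1 := (mul_eq_zero.1 h).resolve_left hne
    obtain ⟨u, t, h2, h3, h4⟩ := real_case X Y ω h1
    refine ⟨!₂[u, t], ?_⟩
    have e1 : xiX !₂[u, t] = X := by rw [h2]; simp [xiX]
    have e2 : xiY !₂[u, t] = Y := by rw [h3]; simp [xiY]
    have e3 : x 2 = -1 - cc x / 2 - 10 * l ^ 3 * ω := by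
      have : WW x = x 2 + 1 + cc x / 2 := rfl
      rw [hω] at this; linarith
    ext i
    fin_cases i
    · simp only [coreX]
      simp [e1, hX]
    · simp only [coreX]
      simp [e2, hY]
    · simp only [coreX]
      rw [e1, e2]
      have e4 : cc x = cc (pl (l * X) (l * Y)) := by
        unfold cc pl; rw [hX, hY]; simp
      simp
      rw [e3, e4, h4]
  · rintro ⟨b, hb⟩
    have e1 : x 0 = l * xiX b := by rw [hb]; simp [coreX]
    have e2 : x 1 = l * xiY b := by rw [hb]; simp [coreX]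
    have e3 : x 2 = -1 - cc (pl (l * xiX b) (l * xiY b)) / 2 -
        10 * l ^ 3 * (b 1 * Real.sin (3 * b 0)) := by rw [hb]; simp [coreX]
    have f1 : X = xiX b := by
      apply mul_left_cancel₀ hl0; rw [← hX, e1]
    have f2 : Y = xiY b := by
      apply mul_left_cancel₀ hl0; rw [← hY, e2]
    have f3 : ω = b 1 * Real.sin (3 * b 0) := by
      have h1 : WW x = x 2 + 1 + cc x / 2 := rfl
      have h2 : cc x = cc (pl (l * xiX b) (l * xiY b)) := by
        unfold cc pl; rw [e1, e2]; simp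
      rw [e3, h2, hω] at h1
      have h3 : (10 * l ^ 3) * ω = (10 * l ^ 3) * (b 1 * Real.sin (3 * b 0)) := by linarith
      exact mul_left_cancel₀ (by positivity) h3
    rw [hGG, f1, f2, f3]
    have := real_case' (b 0) (b 1)
    unfold xiX xiY
    rw [this, mul_zero]

end Pool.Agent.Tight
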