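import Pool.Agent.Lib.MP_a31e1e_gt.Interfaces

/-!
# Project TIGHT: second derivatives of explicitly parametrised surfaces
-/

open Set

namespace Pool.Agent.Tight

namespace H63

/-- the linear form with coefficients `p`, `q` -/
noncomputable def L1 (p q : ℝ) : E2 →L[ℝ] ℝ :=
  p • (EuclideanSpace.proj (0 : Fin 2) : E2 →L[ℝ] ℝ) +
    q • (EuclideanSpace.proj (1 : Fin 2) : E2 →L[ℝ] ℝ)

@[simp] lemma L1_apply (p q : ℝ) (v : E2) : L1 p q v = p * v 0 + q * v 1 := by
  simp [L1]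

/-- the linear map with partial derivatives `p`, `q` -/
noncomputable def L2 (p q : E3) : E2 →L[ℝ] E3 :=
  ContinuousLinearMap.smulRightL ℝ E2 E3 (EuclideanSpace.proj (0 : Fin 2) : E2 →L[ℝ] ℝ) p +
    ContinuousLinearMap.smulRightL ℝ E2 E3 (EuclideanSpace.proj (1 : Fin 2) : E2 →L[ℝ] ℝ) q

@[simp] lemma L2_apply (p q : E3) (v : E2) : L2 p q v = v 0 • p + v 1 • q := by
  simp [L2]

lemma e2_00 : (e2 0) 0 = (1 : ℝ) := by simp [e2]
lemma e2_01 : (e2 0) 1 = (0 : ℝ) := by simp [e2]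
lemma e2_10 : (e2 1) 0 = (0 : ℝ) := by simp [e2]
lemma e2_11 : (e2 1) 1 = (1 : ℝ) := by simp [e2]

/-- a scalar function of two variables with its first and second partial derivatives -/
structure Jet (f fu ft fuu fut ftt : E2 → ℝ) : Prop where
  d : ∀ b, HasStrictFDerivAt f (L1 (fu b) (ft b)) b
  du : ∀ b, HasStrictFDerivAt fu (L1 (fuu b) (fut b)) b
  dt : ∀ b, HasStrictFDerivAt ft (L1 (fut b) (ftt b)) b

lemma has_const (c : ℝ) (b : E2) : HasStrictFDerivAt (fun _ : E2 => c) (L1 0 0) b := by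
  have : (L1 0 0 : E2 →L[ℝ] ℝ) = 0 := by ext v; simp
  rw [this]; exact hasStrictFDerivAt_const c b

lemma has_add {f g : E2 → ℝ} {p q p' q' : ℝ} {b : E2} (hf : HasStrictFDerivAt f (L1 p q) b)
    (hg : HasStrictFDerivAt g (L1 p' q') b) :
    HasStrictFDerivAt (fun b => f b + g b) (L1 (p + p') (q + q')) b := by
  have : (L1 (p + p') (q + q') : E2 →L[ℝ] ℝ) = L1 p q + L1 p' q' := by ext v; simp; ring
  rw [this]; exact hf.add hg

lemma has_mul {f g : E2 → ℝ} {p q p' q' : ℝ} {b : E2} (hf : HasStrictFDerivAt f (L1 p q) b)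
    (hg : HasStrictFDerivAt g (L1 p' q') b) :
    HasStrictFDerivAt (fun b => f b * g b) (L1 (p * g b + f b * p') (q * g b + f b * q')) b := by
  have : (L1 (p * g b + f b * p') (q * g b + f b * q') : E2 →L[ℝ] ℝ) =
      f b • L1 p' q' + g b • L1 p q := by ext v; simp; ring
  rw [this]; exact hf.mul hg

lemma has_cmul {f : E2 → ℝ} {p q : ℝ} {b : E2} (c : ℝ) (hf : HasStrictFDerivAt f (L1 p q) b) :
    HasStrictFDerivAt (fun b => c * f b) (L1 (c * p) (c * q)) b := by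
  have : (L1 (c * p) (c * q) : E2 →L[ℝ] ℝ) = c • L1 p q := by ext v; simp; ring
  rw [this]; exact hf.const_mul c

lemma Jet.add {f fu ft fuu fut ftt g gu gt guu gut gtt : E2 → ℝ}
    (hf : Jet f fu ft fuu fut ftt) (hg : Jet g gu gt guu gut gtt) :
    Jet (fun b => f b + g b) (fun b => fu b + gu b) (fun b => ft b + gt b)
      (fun b => fuu b + guu b) (fun b => fut b + gut b) (fun b => ftt b + gtt b) :=
  ⟨fun b => has_add (hf.d b) (hg.d b), fun b => has_add (hf.du b) (hg.du b),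
    fun b => has_add (hf.dt b) (hg.dt b)⟩

lemma Jet.cmul {f fu ft fuu fut ftt : E2 → ℝ} (c : ℝ)
    (hf : Jet f fu ft fuu fut ftt) :
    Jet (fun b => c * f b) (fun b => c * fu b) (fun b => c * ft b)
      (fun b => c * fuu b) (fun b => c * fut b) (fun b => c * ftt b) :=
  ⟨fun b => has_cmul c (hf.d b), fun b => has_cmul c (hf.du b), fun b => has_cmul c (hf.dt b)⟩

lemma Jet.const (c : ℝ) : Jet (fun _ => c) (fun _ => 0) (fun _ => 0)
      (fun _ => 0) (fun _ => 0) (fun _ => 0) :=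
  ⟨fun b => has_const c b, fun b => has_const 0 b, fun b => has_const 0 b⟩

lemma Jet.mul {f fu ft fuu fut ftt g gu gt guu gut gtt : E2 → ℝ}
    (hf : Jet f fu ft fuu fut ftt) (hg : Jet g gu gt guu gut gtt) :
    Jet (fun b => f b * g b) (fun b => fu b * g b + f b * gu b)
      (fun b => ft b * g b + f b * gt b)
      (fun b => (fuu b * g b + fu b * gu b) + (fu b * gu b + f b * guu b))
      (fun b => (fut b * g b + fu b * gt b) + (ft b * gu b + f b * gut b))
      (fun b => (ftt b * g b + ft b * gt b) + (ft b * gt b + f b * gtt b)) := by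
  refine ⟨fun b => has_mul (hf.d b) (hg.d b), fun b => ?_, fun b => ?_⟩
  · exact has_add (has_mul (hf.du b) (hg.d b)) (has_mul (hf.d b) (hg.du b))
  · have := has_add (has_mul (hf.dt b) (hg.d b)) (has_mul (hf.d b) (hg.dt b))
    convert this using 2
    ring

lemma Jet.congr {f fu ft fuu fut ftt g gu gt guu gut gtt : E2 → ℝ}
    (hf : Jet f fu ft fuu fut ftt) (h0 : ∀ b, g b = f b) (h1 : ∀ b, gu b = fu b)
    (h2 : ∀ b, gt b = ft b) (h3 : ∀ b, guu b = fuu b) (h4 : ∀ b, gut b = fut b)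
    (h5 : ∀ b, gtt b = ftt b) : Jet g gu gt guu gut gtt := by
  have e0 : g = f := funext h0
  have e1 : gu = fu := funext h1
  have e2 : gt = ft := funext h2
  have e3 : guu = fuu := funext h3
  have e4 : gut = fut := funext h4
  have e5 : gtt = ftt := funext h5
  rw [e0, e1, e2, e3, e4, e5]; exact hf

lemma jet_t : Jet (fun b => b 1) (fun _ => 0) (fun _ => 1)
      (fun _ => 0) (fun _ => 0) (fun _ => 0) := by
  refine ⟨fun b => ?_, fun b => has_const 0 b, fun b => has_const 1 b⟩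
  have : (L1 0 1 : E2 →L[ℝ] ℝ) = (EuclideanSpace.proj (1 : Fin 2) : E2 →L[ℝ] ℝ) := by
    ext v; simp
  rw [this]
  exact (EuclideanSpace.proj (1 : Fin 2) : E2 →L[ℝ] ℝ).hasStrictFDerivAt

lemma has_u (b : E2) : HasStrictFDerivAt (fun b : E2 => b 0) (L1 1 0) b := by
  have : (L1 1 0 : E2 →L[ℝ] ℝ) = (EuclideanSpace.proj (0 : Fin 2) : E2 →L[ℝ] ℝ) := by
    ext v; simp
  rw [this]
  exact (EuclideanSpace.proj (0 : Fin 2) : E2 →L[ℝ] ℝ).hasStrictFDerivAt

lemma has_sin (k : ℝ) (b : E2) :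
    HasStrictFDerivAt (fun b : E2 => Real.sin (k * b 0)) (L1 (k * Real.cos (k * b 0)) 0) b := by
  have h := (has_cmul k (has_u b)).sin
  have e : (L1 (k * Real.cos (k * b 0)) 0 : E2 →L[ℝ] ℝ) =
      Real.cos (k * b 0) • L1 (k * 1) (k * 0) := by
    ext v; simp only [L1_apply, smul_apply, smul_eq_mul]; ring
  rw [e]; exact h

lemma has_cos (k : ℝ) (b : E2) :
    HasStrictFDerivAt (fun b : E2 => Real.cos (k * b 0)) (L1 (-(k * Real.sin (k * b 0))) 0) b := by
  have h := (has_cmul k (has_u b)).cos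
  have e : (L1 (-(k * Real.sin (k * b 0))) 0 : E2 →L[ℝ] ℝ) =
      (-Real.sin (k * b 0)) • L1 (k * 1) (k * 0) := by
    ext v; simp only [L1_apply, smul_apply, smul_eq_mul]; ring
  rw [e]; exact h

lemma jet_sin (k : ℝ) : Jet (fun b => Real.sin (k * b 0)) (fun b => k * Real.cos (k * b 0))
    (fun _ => 0) (fun b => k * -(k * Real.sin (k * b 0))) (fun _ => 0) (fun _ => 0) := by
  refine ⟨fun b => has_sin k b, fun b => ?_, fun b => has_const 0 b⟩
  have := has_cmul k (has_cos k b)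
  simpa using this

lemma jet_cos (k : ℝ) : Jet (fun b => Real.cos (k * b 0)) (fun b => -k * Real.sin (k * b 0))
    (fun _ => 0) (fun b => -k * (k * Real.cos (k * b 0))) (fun _ => 0) (fun _ => 0) := by
  refine ⟨fun b => ?_, fun b => ?_, fun b => has_const 0 b⟩
  · have := has_cos k b
    rwa [← neg_mul] at this
  have := has_cmul (-k) (has_sin k b)
  simpa using this

lemma has_vec {f g h : E2 → ℝ} {p q p' q' p'' q'' : ℝ} {b : E2}
    (hf : HasStrictFDerivAt f (L1 p q) b) (hg : HasStrictFDerivAt g (L1 p' q') b)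
    (hh : HasStrictFDerivAt h (L1 p'' q'') b) :
    HasStrictFDerivAt (fun b => (!₂[f b, g b, h b] : E3)) (L2 !₂[p, p', p''] !₂[q, q', q'']) b := by
  rw [hasStrictFDerivAt_euclidean]
  intro i
  fin_cases i
  · have e : (PiLp.proj 2 (fun _ : Fin 3 => ℝ) 0 ∘L L2 !₂[p, p', p''] !₂[q, q', q'']) =
        L1 p q := by
      ext v; simp; ring
    rw [← e] at hf
    exact hf
  · have e : (PiLp.proj 2 (fun _ : Fin 3 => ℝ) 1 ∘L L2 !₂[p, p', p''] !₂[q, q', q'']) =
        L1 p' q' := by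
      ext v; simp; ring
    rw [← e] at hg
    exact hg
  · have e : (PiLp.proj 2 (fun _ : Fin 3 => ℝ) 2 ∘L L2 !₂[p, p', p''] !₂[q, q', q'']) =
        L1 p'' q'' := by
      ext v; simp; ring
    rw [← e] at hh
    exact hh

variable {f fu ft fuu fut ftt g gu gt guu gut gtt h hu ht huu hut htt : E2 → ℝ}

lemma fderiv_vec (hf : Jet f fu ft fuu fut ftt) (hg : Jet g gu gt guu gut gtt)
    (hh : Jet h hu ht huu hut htt) :
    fderiv ℝ (fun b => (!₂[f b, g b, h b] : E3)) =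
      fun b => L2 !₂[fu b, gu b, hu b] !₂[ft b, gt b, ht b] := by
  funext b
  exact (has_vec (hf.d b) (hg.d b) (hh.d b)).hasFDerivAt.fderiv

lemma D2_vec (hf : Jet f fu ft fuu fut ftt) (hg : Jet g gu gt guu gut gtt)
    (hh : Jet h hu ht huu hut htt) (b u v : E2) :
    D2 (fun b => (!₂[f b, g b, h b] : E3)) b u v =
      v 0 • (L2 !₂[fuu b, guu b, huu b] !₂[fut b, gut b, hut b] u) +
      v 1 • (L2 !₂[fut b, gut b, hut b] !₂[ftt b, gtt b, htt b] u) := by
  unfold D2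
  rw [fderiv_vec hf hg hh]
  have h1 := has_vec (hf.du b) (hg.du b) (hh.du b)
  have h2 := has_vec (hf.dt b) (hg.dt b) (hh.dt b)
  have h3 := ((ContinuousLinearMap.smulRightL ℝ E2 E3
    (EuclideanSpace.proj (0 : Fin 2) : E2 →L[ℝ] ℝ)).hasStrictFDerivAt
      (x := (!₂[fu b, gu b, hu b] : E3))).comp b h1
  have h4 := ((ContinuousLinearMap.smulRightL ℝ E2 E3
    (EuclideanSpace.proj (1 : Fin 2) : E2 →L[ℝ] ℝ)).hasStrictFDerivAt
      (x := (!₂[ft b, gt b, ht b] : E3))).comp b h2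
  have h5 := (h3.add h4).hasFDerivAt.fderiv
  have h6 : (fun b => L2 !₂[fu b, gu b, hu b] !₂[ft b, gt b, ht b]) =
    (fun x => ((ContinuousLinearMap.smulRightL ℝ E2 E3)
      (EuclideanSpace.proj (0 : Fin 2) : E2 →L[ℝ] ℝ)) !₂[fu x, gu x, hu x]) +
    (fun x => ((ContinuousLinearMap.smulRightL ℝ E2 E3)
      (EuclideanSpace.proj (1 : Fin 2) : E2 →L[ℝ] ℝ)) !₂[ft x, gt x, ht x]) := rfl
  rw [h6, h5]
  simp

/-- The second fundamental form from jets. -/
lemma sff_vec (hf : Jet f fu ft fuu fut ftt) (hg : Jet g gu gt guu gut gtt)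
    (hh : Jet h hu ht huu hut htt) (b : E2) :
    sff (fun b => (!₂[f b, g b, h b] : E3)) b 0 0 =
      det3 !₂[fu b, gu b, hu b] !₂[ft b, gt b, ht b] !₂[fuu b, guu b, huu b] ∧
    sff (fun b => (!₂[f b, g b, h b] : E3)) b 0 1 =
      det3 !₂[fu b, gu b, hu b] !₂[ft b, gt b, ht b] !₂[fut b, gut b, hut b] ∧
    sff (fun b => (!₂[f b, g b, h b] : E3)) b 1 1 =
      det3 !₂[fu b, gu b, hu b] !₂[ft b, gt b, ht b] !₂[ftt b, gtt b, htt b] := by
  have hd : ∀ i, fderiv ℝ (fun b => (!₂[f b, g b, h b] : E3)) b (e2 i) =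
      L2 !₂[fu b, gu b, hu b] !₂[ft b, gt b, ht b] (e2 i) := by
    intro i; rw [fderiv_vec hf hg hh]
  have e0 : L2 !₂[fu b, gu b, hu b] !₂[ft b, gt b, ht b] (e2 0) = !₂[fu b, gu b, hu b] := by
    rw [L2_apply, e2_00, e2_01]; simp
  have e1 : L2 !₂[fu b, gu b, hu b] !₂[ft b, gt b, ht b] (e2 1) = !₂[ft b, gt b, ht b] := by
    rw [L2_apply, e2_10, e2_11]; simp
  refine ⟨?_, ?_, ?_⟩
  · unfold sff
    rw [hd 0, hd 1, e0, e1, D2_vec hf hg hh]
    simp only [L2_apply, e2_00, e2_01, one_smul, zero_smul, add_zero]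
  · unfold sff
    rw [hd 0, hd 1, e0, e1, D2_vec hf hg hh]
    simp only [L2_apply, e2_00, e2_01, e2_10, e2_11, one_smul, zero_smul, add_zero, zero_add]
  · unfold sff
    rw [hd 0, hd 1, e0, e1, D2_vec hf hg hh]
    simp only [L2_apply, e2_10, e2_11, one_smul, zero_smul, zero_add]

end H63

end Pool.Agent.Tight
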